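import Pool.Agent.H56.EX.Defs

/-! Topology lemma LT3: a small arc between the last hole end of the top pattern and the first
glued strand turns the hole end into a hole end of the bottom pattern. -/

namespace H56.EX

namespace LT3

lemma eqvGen_map {α β : Type*} {r : α → α → Prop} {s : β → β → Prop} (f : α → β)
    (h : ∀ a b, r a b → Relation.EqvGen s (f a) (f b)) {a b : α} (hab : Relation.EqvGen r a b) :
    Relation.EqvGen s (f a) (f b) := by
  induction hab with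
  | rel a b hab => exact h a b hab
  | refl a => exact Relation.EqvGen.refl _
  | symm a b _ ih => exact Relation.EqvGen.symm _ _ ih
  | trans a b c _ _ ih1 ih2 => exact Relation.EqvGen.trans _ _ _ ih1 ih2



variable {Lt Lb : ℕ}

/-- new graph to old graph -/
def f (Lt kt : ℕ) : ℤ ⊕ ℤ → ℤ ⊕ ℤ
  | Sum.inl y => Sum.inl (phi Lt kt y)
  | Sum.inr y => Sum.inr y

open Classical in
/-- old graph to new graph -/
noncomputable def g (Lt Lb kt kb : ℕ) : ℤ ⊕ ℤ → ℤ ⊕ ℤ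
  | Sum.inl x =>
      if Cg (Lt + 2) x kt then Sum.inr (kb + Lb * ((x - kt) / ((Lt : ℤ) + 2)))
      else if Cg (Lt + 2) x (kt + 1) then Sum.inr (kb + Lb * ((x - (kt + 1)) / ((Lt : ℤ) + 2)))
      else Sum.inl (psi Lt kt x)
  | Sum.inr y => Sum.inr y

lemma g_phi (hL : 1 ≤ Lt) (kt kb : ℕ) (y : ℤ) :
    g Lt Lb kt kb (Sum.inl (phi Lt kt y)) = Sum.inl y := by
  have h := phi_not hL (kt : ℤ) y
  simp only [g, if_neg h.1, if_neg h.2, psi_phi hL]

lemma g_zero (kt kb : ℕ) (a : ℤ) :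
    g Lt Lb kt kb (Sum.inl (kt + (Lt + 2) * a)) = Sum.inr (kb + Lb * a) := by
  have h : Cg (Lt + 2) ((kt : ℤ) + (Lt + 2) * a) kt := by
    unfold Cg
    refine ⟨a, ?_⟩
    push_cast; ring
  have e : ((kt : ℤ) + (Lt + 2) * a - kt) / ((Lt : ℤ) + 2) = a := by
    rw [show (kt : ℤ) + (Lt + 2) * a - kt = (Lt + 2) * a by ring]
    exact Int.mul_ediv_cancel_left _ (by omega)
  simp only [g, if_pos h, e]

lemma g_one (kt kb : ℕ) (a : ℤ) :
    g Lt Lb kt kb (Sum.inl (kt + 1 + (Lt + 2) * a)) = Sum.inr (kb + Lb * a) := by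
  have h1 : Cg (Lt + 2) ((kt : ℤ) + 1 + (Lt + 2) * a) (kt + 1) := by
    unfold Cg
    refine ⟨a, ?_⟩
    push_cast; ring
  have h0 : ¬ Cg (Lt + 2) ((kt : ℤ) + 1 + (Lt + 2) * a) kt := fun h =>
    not_Cg_succ (L := Lt + 2) (by omega) (kt : ℤ) (Cg.trans' (Cg.symm' h) h1)
  have e : ((kt : ℤ) + 1 + (Lt + 2) * a - (kt + 1)) / ((Lt : ℤ) + 2) = a := by
    rw [show (kt : ℤ) + 1 + (Lt + 2) * a - (kt + 1) = (Lt + 2) * a by ring]
    exact Int.mul_ediv_cancel_left _ (by omega)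
  simp only [g, if_neg h0, if_pos h1, e]

lemma cases (hL : 1 ≤ Lt) (kt : ℕ) (x : ℤ) :
    (∃ a : ℤ, x = kt + (Lt + 2) * a) ∨ (∃ a : ℤ, x = kt + 1 + (Lt + 2) * a) ∨
      ∃ y, x = phi Lt kt y := by
  rcases pos_cases hL (kt : ℤ) x with h | h | h
  · left
    obtain ⟨a, ha⟩ := h
    refine ⟨a, ?_⟩
    push_cast at ha
    linarith
  · right; left
    obtain ⟨a, ha⟩ := h
    refine ⟨a, ?_⟩
    push_cast at ha
    linarith
  · exact Or.inr (Or.inr h)

/-- value of `phi` at a glued position -/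
lemma phi_glue (kt M : ℕ) (hLt : Lt = kt + M) (a : ℤ) (j : ℕ) (hj : j < M) :
    phi Lt kt (kt + j + Lt * a) = kt + 1 + (j + 1) + (Lt + 2) * a := by
  have := phi_form (L := Lt) (by omega) (kt : ℤ) a j (by omega) (by omega)
  rw [this]; ring

/-- value of `phi` at a hole position -/
lemma phi_hole (kt M : ℕ) (hLt : Lt = kt + M) (a : ℤ) (s : ℕ) (hs : s < kt) :
    phi Lt kt (s + Lt * a) = s + (Lt + 2) * a := by
  have := phi_form (L := Lt) (by omega) (kt : ℤ) (a - 1) (Lt + s - kt) (by omega) (by omega)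
  rw [show (kt : ℤ) + (Lt + s - kt) + Lt * (a - 1) = s + Lt * a by ring] at this
  rw [this]; ring

lemma step_new_old (kt kb M : ℕ) (hLt : Lt = kt + M) (Pt : Pat Lt) (Pb : Pat Lb) (u v : ℤ ⊕ ℤ)
    (h : Step kt (kb + 1) M Pt Pb u v) :
    Conn (kt + 1) kb (M + 1) (ins kt Pt) Pb (f Lt kt u) (f Lt kt v) := by
  cases h with
  | top x =>
    show Conn _ _ _ _ _ (Sum.inl (phi Lt kt x)) (Sum.inl (phi Lt kt (Pt.m x)))
    rw [← ins_phi]
    exact Relation.EqvGen.rel _ _ (Step.top _)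
  | bot y => exact Relation.EqvGen.rel _ _ (Step.bot _)
  | glue a j hj =>
    show Conn _ _ _ _ _ (Sum.inl (phi Lt kt (kt + j + Lt * a)))
      (Sum.inr (((kb + 1 : ℕ) : ℤ) + j + Lb * a))
    rw [phi_glue kt M hLt a j hj]
    have := Step.glue (kt := kt + 1) (kb := kb) (M := M + 1) (Pt := ins kt Pt) (Pb := Pb) a (j + 1)
      (by omega)
    push_cast at this ⊢
    have e : (kb : ℤ) + 1 + j + Lb * a = kb + (j + 1) + Lb * a := by ring
    rw [e]
    exact Relation.EqvGen.rel _ _ this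

lemma step_old_new (kt kb M : ℕ) (hLt : Lt = kt + M) (Pt : Pat Lt) (Pb : Pat Lb) (u v : ℤ ⊕ ℤ)
    (h : Step (kt + 1) kb (M + 1) (ins kt Pt) Pb u v) :
    Conn kt (kb + 1) M Pt Pb (g Lt Lb kt kb u) (g Lt Lb kt kb v) := by
  have hL : 1 ≤ Lt := le_trans (by norm_num) Pt.two_le
  cases h with
  | top x =>
    rcases cases hL kt x with ⟨a, rfl⟩ | ⟨a, rfl⟩ | ⟨y, rfl⟩
    · have h : Cg (Lt + 2) ((kt : ℤ) + (Lt + 2) * a) kt := by
        unfold Cg
        refine ⟨a, ?_⟩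
        push_cast; ring
      rw [ins_i _ _ h, show (kt : ℤ) + (Lt + 2) * a + 1 = kt + 1 + (Lt + 2) * a by ring, g_zero,
        g_one]
      exact Relation.EqvGen.refl _
    · have h : Cg (Lt + 2) ((kt : ℤ) + 1 + (Lt + 2) * a) (kt + 1) := by
        unfold Cg
        refine ⟨a, ?_⟩
        push_cast; ring
      rw [ins_succ _ _ h, show (kt : ℤ) + 1 + (Lt + 2) * a - 1 = kt + (Lt + 2) * a by ring, g_zero,
        g_one]
      exact Relation.EqvGen.refl _
    · rw [ins_phi, g_phi hL, g_phi hL]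
      exact Relation.EqvGen.rel _ _ (Step.top _)
  | bot y => exact Relation.EqvGen.rel _ _ (Step.bot _)
  | glue a j hj =>
    rcases j with _ | j
    · have e1 : (((kt + 1 : ℕ) : ℤ) + ((0 : ℕ) : ℤ) + ((Lt + 2 : ℕ) : ℤ) * a) =
          kt + 1 + (Lt + 2) * a := by push_cast; ring
      have e2 : ((kb : ℤ) + ((0 : ℕ) : ℤ) + (Lb : ℤ) * a) = kb + Lb * a := by push_cast; ring
      rw [e1, e2, g_one]
      exact Relation.EqvGen.refl _
    · have hj' : j < M := by omega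
      have e1 : (((kt + 1 : ℕ) : ℤ) + ((j + 1 : ℕ) : ℤ) + ((Lt + 2 : ℕ) : ℤ) * a) =
          phi Lt kt (kt + j + Lt * a) := by
        rw [phi_glue kt M hLt a j hj']; push_cast; ring
      have e2 : ((kb : ℤ) + ((j + 1 : ℕ) : ℤ) + (Lb : ℤ) * a) =
          ((kb + 1 : ℕ) : ℤ) + j + Lb * a := by push_cast; ring
      rw [e1, e2, g_phi hL]
      exact Relation.EqvGen.rel _ _ (Step.glue a j hj')

/-- correspondence of the hole ends -/
def sig (kt kb : ℕ) : Fin (kt + 1) ⊕ Fin kb → Fin kt ⊕ Fin (kb + 1)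
  | Sum.inl s => if h : (s : ℕ) < kt then Sum.inl ⟨s, h⟩ else Sum.inr ⟨kb, by omega⟩
  | Sum.inr s => Sum.inr ⟨s, by omega⟩

lemma sig_inj (kt kb : ℕ) : Function.Injective (sig kt kb) := by
  rintro (s | s) (t | t) h
  · by_cases h1 : (s : ℕ) < kt <;> by_cases h2 : (t : ℕ) < kt
    · simp only [sig, dif_pos h1, dif_pos h2, Sum.inl.injEq, Fin.mk.injEq] at h
      rw [Sum.inl.injEq, Fin.ext_iff]; exact h
    · simp [sig, dif_pos h1, dif_neg h2] at h
    · simp [sig, dif_neg h1, dif_pos h2] at h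
    · rw [Sum.inl.injEq, Fin.ext_iff]; omega
  · by_cases h1 : (s : ℕ) < kt
    · simp [sig, dif_pos h1] at h
    · simp only [sig, dif_neg h1, Sum.inr.injEq, Fin.mk.injEq] at h; omega
  · by_cases h1 : (t : ℕ) < kt
    · simp [sig, dif_pos h1] at h
    · simp only [sig, dif_neg h1, Sum.inr.injEq, Fin.mk.injEq] at h; omega
  · simp only [sig, Sum.inr.injEq, Fin.mk.injEq] at h
    rw [Sum.inr.injEq, Fin.ext_iff]; exact h

lemma sig_surj (kt kb : ℕ) : Function.Surjective (sig kt kb) := by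
  rintro (s | s)
  · refine ⟨Sum.inl ⟨s, by omega⟩, ?_⟩
    simp [sig]
  · by_cases h : (s : ℕ) < kb
    · exact ⟨Sum.inr ⟨s, h⟩, by simp [sig]⟩
    · refine ⟨Sum.inl ⟨kt, by omega⟩, ?_⟩
      simp only [sig, lt_irrefl, dif_neg, not_false_eq_true, Sum.inr.injEq, Fin.ext_iff]
      omega

lemma g_hpos (kt kb M : ℕ) (hLt : Lt = kt + M) (hL : 1 ≤ Lt) (u : Fin (kt + 1) ⊕ Fin kb) (a : ℤ) :
    g Lt Lb kt kb (hpos (Lt + 2) Lb (kt + 1) kb u a) = hpos Lt Lb kt (kb + 1) (sig kt kb u) a := by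
  rcases u with s | s
  · by_cases h : (s : ℕ) < kt
    · simp only [sig, dif_pos h, hpos]
      have e : (((s : ℕ) : ℤ) + ((Lt + 2 : ℕ) : ℤ) * a) = phi Lt kt (((s : ℕ) : ℤ) + Lt * a) := by
        rw [phi_hole kt M hLt a s h]; push_cast; ring
      rw [e, g_phi hL]
    · have hs : (s : ℕ) = kt := by omega
      simp only [sig, dif_neg h, hpos]
      have e : (((s : ℕ) : ℤ) + ((Lt + 2 : ℕ) : ℤ) * a) = kt + (Lt + 2) * a := by
        rw [hs]; push_cast; ring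
      rw [e, g_zero]
  · rfl

lemma f_hpos (kt kb M : ℕ) (hLt : Lt = kt + M) (Pt : Pat Lt) (Pb : Pat Lb)
    (u : Fin (kt + 1) ⊕ Fin kb) (a : ℤ) :
    Conn (kt + 1) kb (M + 1) (ins kt Pt) Pb (f Lt kt (hpos Lt Lb kt (kb + 1) (sig kt kb u) a))
      (hpos (Lt + 2) Lb (kt + 1) kb u a) := by
  rcases u with s | s
  · by_cases h : (s : ℕ) < kt
    · simp only [sig, dif_pos h, hpos, f]
      have e : (((s : ℕ) : ℤ) + ((Lt + 2 : ℕ) : ℤ) * a) = phi Lt kt (((s : ℕ) : ℤ) + Lt * a) := by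
        rw [phi_hole kt M hLt a s h]; push_cast; ring
      rw [e]
      exact Relation.EqvGen.refl _
    · have hs : (s : ℕ) = kt := by omega
      simp only [sig, dif_neg h, hpos, f]
      have e : (((s : ℕ) : ℤ) + ((Lt + 2 : ℕ) : ℤ) * a) = kt + (Lt + 2) * a := by
        rw [hs]; push_cast; ring
      rw [e]
      have hc : Cg (Lt + 2) ((kt : ℤ) + 1 + (Lt + 2) * a) (kt + 1) := by
        unfold Cg
        refine ⟨a, ?_⟩
        push_cast; ring
      have h1 := Step.top (kt := kt + 1) (kb := kb) (M := M + 1) (Pt := ins kt Pt) (Pb := Pb)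
        ((kt : ℤ) + 1 + (Lt + 2) * a)
      rw [ins_succ _ _ hc, show (kt : ℤ) + 1 + (Lt + 2) * a - 1 = kt + (Lt + 2) * a by ring] at h1
      have h2 := Step.glue (kt := kt + 1) (kb := kb) (M := M + 1) (Pt := ins kt Pt) (Pb := Pb) a 0
        (by omega)
      have e1 : (((kt + 1 : ℕ) : ℤ) + ((0 : ℕ) : ℤ) + ((Lt + 2 : ℕ) : ℤ) * a) =
          kt + 1 + (Lt + 2) * a := by push_cast; ring
      have e2 : ((kb : ℤ) + ((0 : ℕ) : ℤ) + (Lb : ℤ) * a) = kb + Lb * a := by push_cast; ring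
      rw [e1, e2] at h2
      exact Relation.EqvGen.trans _ _ _
        (Relation.EqvGen.symm _ _ (Relation.EqvGen.rel _ _ h2)) (Relation.EqvGen.rel _ _ h1)
  · exact Relation.EqvGen.refl _

end LT3

variable {Lt Lb : ℕ}

/-- LT3: small arc between the last hole end of the top and the first glued strand. -/
theorem leg_ins_right (kt kb M : ℕ) (hLt : Lt = kt + M) (hLb : Lb = kb + 1 + M)
    (Pt : Pat Lt) (Pb : Pat Lb) :
    Leg (kt + 1) kb (M + 1) (ins kt Pt) Pb ↔ Leg kt (kb + 1) M Pt Pb := by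
  have hL : 1 ≤ Lt := le_trans (by norm_num) Pt.two_le
  constructor
  · intro H u' v' a b h
    obtain ⟨u, rfl⟩ := LT3.sig_surj kt kb u'
    obtain ⟨v, rfl⟩ := LT3.sig_surj kt kb v'
    have h1 := LT3.eqvGen_map (LT3.f Lt kt) (LT3.step_new_old kt kb M hLt Pt Pb) h
    have h2 := LT3.f_hpos kt kb M hLt Pt Pb u a
    have h3 := LT3.f_hpos kt kb M hLt Pt Pb v b
    have h4 := Relation.EqvGen.trans _ _ _ (Relation.EqvGen.symm _ _ h2)
      (Relation.EqvGen.trans _ _ _ h1 h3)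
    rcases H u v a b h4 with ⟨h5, h6⟩ | h5
    · left; exact ⟨by rw [h5], h6⟩
    · right; exact h5
  · intro H u v a b h
    have h1 := LT3.eqvGen_map (LT3.g Lt Lb kt kb) (LT3.step_old_new kt kb M hLt Pt Pb) h
    rw [LT3.g_hpos kt kb M hLt hL, LT3.g_hpos kt kb M hLt hL] at h1
    rcases H _ _ a b h1 with ⟨h5, h6⟩ | h5
    · left; exact ⟨LT3.sig_inj kt kb h5, h6⟩
    · right; exact h5

end H56.EX
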